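import Mathlib
import Pool.Agent.Helper92.PO.Stmts

namespace Pool.Agent.Helper92.PO

open Function

/-- finitely many lists of a given length with entries in a list -/
theorem sux_fin {α : Type} (L : List α) : ∀ k : ℕ,
    {vs : List α | (∀ v ∈ vs, v ∈ L) ∧ vs.length = k}.Finite := by
  intro k
  induction k with
  | zero =>
    apply Set.Finite.subset (Set.finite_singleton ([] : List α))
    rintro vs ⟨_, h⟩
    exact List.eq_nil_of_length_eq_zero h
  | succ k ih =>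
    have hL : {a : α | a ∈ L}.Finite := List.finite_toSet L
    apply Set.Finite.subset (Set.Finite.image2 (fun a (l : List α) => a :: l) hL ih)
    rintro vs ⟨h1, h2⟩
    cases vs with
    | nil => simp at h2
    | cons a t =>
      refine ⟨a, h1 a (by simp), t, ⟨fun v hv => h1 v (by simp [hv]), ?_⟩, rfl⟩
      simpa using h2

/-- the number of elements of a disjoint union -/
theorem sux_sum {ι α : Type} (R : ι → Set α) : ∀ l : List ι, l.Nodup →
    (∀ i ∈ l, (R i).Finite) → (∀ i ∈ l, ∀ j ∈ l, i ≠ j → Disjoint (R i) (R j)) →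
    {x | ∃ i ∈ l, x ∈ R i}.Finite ∧
      (l.map fun i => (R i).ncard).sum = {x | ∃ i ∈ l, x ∈ R i}.ncard := by
  intro l
  induction l with
  | nil =>
    intro _ _ _
    have : {x | ∃ i ∈ ([] : List ι), x ∈ R i} = ∅ := by
      ext x
      simp
    rw [this]
    simp
  | cons a l ih =>
    intro hn hf hd
    have hn' := List.nodup_cons.1 hn
    obtain ⟨h1, h2⟩ := ih hn'.2 (fun i hi => hf i (by simp [hi]))
      (fun i hi j hj hij => hd i (by simp [hi]) j (by simp [hj]) hij)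
    have hu : {x | ∃ i ∈ a :: l, x ∈ R i} = R a ∪ {x | ∃ i ∈ l, x ∈ R i} := by
      ext x
      simp
    have hfa : (R a).Finite := hf a (by simp)
    have hdis : Disjoint (R a) {x | ∃ i ∈ l, x ∈ R i} := by
      rw [Set.disjoint_left]
      rintro x hx ⟨i, hi, hxi⟩
      have hne : a ≠ i := by
        rintro rfl
        exact hn'.1 hi
      exact Set.disjoint_left.1 (hd a (by simp) i (by simp [hi]) hne) hx hxi
    rw [hu]
    refine ⟨hfa.union h1, ?_⟩
    rw [Set.ncard_union_eq hdis hfa h1, List.map_cons, List.sum_cons, h2]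

theorem sux_zero (n : ℕ) : ((0, 0) : Lab) ∈ labs n := by
  simp [labs]

theorem st_SUX (h1 : ST_WCN) (h2 : ST_RUN) (h3 : ST_XIU) (h4 : ST_XIN) : ST_SUX := by
  intro n σ hσ
  set R : Row → Set (List Lab) := fun ξ => {vs : List Lab | (∀ v ∈ vs, v ∈ labs n) ∧
    okRun n σ ξ (cells n) (st0 n) vs = true} with hR
  have hW : ((rows n).map fun ξ => W n σ ξ (cells n) (st0 n)).sum =
      ((rows n).map fun ξ => (R ξ).ncard).sum := by
    congr 1
    apply List.map_congr_left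
    intro ξ _
    exact h1 n σ ξ (cells n) (st0 n)
  have hfin : ∀ ξ, (R ξ).Finite := by
    intro ξ
    apply Set.Finite.subset (sux_fin (labs n) (KK n * wd n))
    rintro vs ⟨ha, hb⟩
    exact ⟨ha, ((h2 n σ ξ vs hσ).1 hb).1⟩
  have hlab : ∀ vs : List Lab, (∀ v ∈ vs, v ∈ labs n) → ∀ k, fun2 n vs k (wd n - 1) ∈ labs n := by
    intro vs hvs k
    show vs.getD (k * wd n + (wd n - 1)) (0, 0) ∈ labs n
    rcases lt_or_ge (k * wd n + (wd n - 1)) vs.length with hlt | hge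
    · rw [List.getD_eq_getElem _ _ hlt]
      exact hvs _ (List.getElem_mem hlt)
    · rw [List.getD_eq_default _ _ hge]
      exact sux_zero n
  have hdis : ∀ ξ ∈ rows n, ∀ ξ' ∈ rows n, ξ ≠ ξ' → Disjoint (R ξ) (R ξ') := by
    intro ξ hξ ξ' hξ' hne
    rw [Set.disjoint_left]
    rintro vs ⟨ha, hb⟩ ⟨_, hb'⟩
    obtain ⟨_, hs, hk⟩ := (h2 n σ ξ vs hσ).1 hb
    obtain ⟨_, _, hk'⟩ := (h2 n σ ξ' vs hσ).1 hb'
    obtain ⟨x, _, hx⟩ := h3 n (fun k => fun2 n vs k (wd n - 1)) (hlab vs ha) hs.2.2.1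
    exact hne ((hx ξ ⟨hξ, hk⟩).trans (hx ξ' ⟨hξ', hk'⟩).symm)
  have hs := (sux_sum R (rows n) (h4 n) (fun ξ _ => hfin ξ) hdis).2
  rw [hW, hs]
  congr 1
  ext vs
  constructor
  · rintro ⟨ξ, _, ha, hb⟩
    obtain ⟨hc, hd, _⟩ := (h2 n σ ξ vs hσ).1 hb
    exact ⟨ha, hc, hd⟩
  · rintro ⟨ha, hc, hd⟩
    obtain ⟨ξ, ⟨hξ, hk⟩, _⟩ := h3 n (fun k => fun2 n vs k (wd n - 1)) (hlab vs ha) hd.2.2.1
    exact ⟨ξ, hξ, ha, (h2 n σ ξ vs hσ).2 ⟨hc, hd, hk⟩⟩

end Pool.Agent.Helper92.PO
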